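import Pool.Agent.Helper20.NP.Stmts

set_option autoImplicit false

/-! Module GE: groups with a commutator subgroup of order `p`. -/

namespace Pool.Agent.Helper20.NP

open Pool.Agent.Helper21.DN

/-- duality -/
theorem ge_dual {X Y : Type} [Group X] [Group Y] [Finite X] [Finite Y] (β : X →* (Y →* ℂˣ)) :
    β.ker.index ≤ β.flip.ker.index := by
  have hR : Nat.card (β.flip.range →* ℂˣ) = Nat.card β.flip.range :=
    CommGroup.card_monoidHom_of_hasEnoughRootsOfUnity _ ℂ
  have hfin : Finite β.flip.range := inferInstance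
  have hfin2 : Finite (β.flip.range →* ℂˣ) :=
    Nat.finite_of_card_ne_zero (by rw [hR]; exact Nat.card_pos.ne')
  rw [Subgroup.index_ker β.flip, ← hR]
  obtain ⟨ev, hev⟩ : ∃ ev : X → (β.flip.range →* ℂˣ), ∀ x (y : Y),
      ev x ⟨β.flip y, ⟨y, rfl⟩⟩ = β x y :=
    ⟨fun x => { toFun := fun r => (r : X →* ℂˣ) x, map_one' := rfl, map_mul' := fun _ _ => rfl },
      fun x y => rfl⟩
  refine Nat.card_le_card_of_injective (fun q : X ⧸ β.ker => ev q.out) ?_
  intro q q' h
  have h1 : β q.out = β q'.out := by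
    ext y
    have := DFunLike.congr_fun h ⟨β.flip y, ⟨y, rfl⟩⟩
    simp only [hev] at this
    rw [this]
  rw [← QuotientGroup.out_eq' q, ← QuotientGroup.out_eq' q']
  rw [QuotientGroup.eq, MonoidHom.mem_ker, map_mul, map_inv, h1, inv_mul_cancel]

theorem ge_dual' {X Y : Type} [Group X] [Group Y] [Finite X] [Finite Y] (β : X →* (Y →* ℂˣ)) :
    β.ker.index = β.flip.ker.index :=
  le_antisymm (ge_dual β) (ge_dual β.flip)

/-- adding a commuting element of order `p` to an elementary abelian group -/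
theorem ge_add {P : Type} [Group P] (p : ℕ) (S : Set P) (hS : ∀ a ∈ S, ∀ b ∈ S, a * b = b * a)
    (hp : ∀ a ∈ S, a ^ p = 1) :
    (∀ a ∈ Subgroup.closure S, ∀ b ∈ Subgroup.closure S, a * b = b * a) ∧
    (∀ a ∈ Subgroup.closure S, a ^ p = 1) := by
  have h1 : Subgroup.closure S ≤ Subgroup.centralizer S := by
    rw [Subgroup.closure_le]
    intro a ha
    exact Subgroup.mem_centralizer_iff.2 fun b hb => hS b hb a ha
  have h2 : Subgroup.closure S ≤ Subgroup.centralizer (Subgroup.closure S : Set P) := by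
    rw [Subgroup.closure_le]
    intro a ha
    exact Subgroup.mem_centralizer_iff.2 fun b hb =>
      (Subgroup.mem_centralizer_iff.1 (h1 hb) a ha).symm
  have h3 : ∀ a ∈ Subgroup.closure S, ∀ b ∈ Subgroup.closure S, a * b = b * a := fun a ha b hb =>
    (Subgroup.mem_centralizer_iff.1 (h2 ha) b hb).symm
  refine ⟨h3, fun a ha => ?_⟩
  induction ha using Subgroup.closure_induction with
  | mem x hx => exact hp x hx
  | one => exact one_pow _
  | mul x y hx hy h4 h5 =>
    have : Commute x y := h3 x hx y hy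
    rw [this.mul_pow, h4, h5, one_mul]
  | inv x hx h4 => rw [inv_pow, h4, inv_one]

/-- a commutator subgroup of order `p` is central -/
theorem ge_cen (p : ℕ) [Fact p.Prime] (P : Type) [Group P] [Finite P] (hP : IsPGroup p P)
    (hc : Nat.card (commutator P) = p) : commutator P ≤ Subgroup.center P := by
  have hP' : IsPGroup p (ConjAct P) := hP.of_equiv ConjAct.toConjAct
  obtain ⟨b, hb, hb1⟩ := hP'.exists_fixed_point_of_prime_dvd_card_of_fixed_point (commutator P)
    (by rw [hc]) (a := 1) (by intro g; exact smul_one g)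
  have hbc : (b : P) ∈ Subgroup.center P := by
    rw [Subgroup.mem_center_iff]
    intro g
    have h1 := congrArg (fun x : commutator P => (x : P)) (hb (ConjAct.toConjAct g))
    have h2 : g * (b : P) * g⁻¹ = b := h1
    exact mul_inv_eq_iff_eq_mul.1 h2
  have hpr : (Nat.card (commutator P)).Prime := by rw [hc]; exact Fact.out
  have : Fact (Nat.card (commutator P)).Prime := ⟨hpr⟩
  rcases ((Subgroup.center P).subgroupOf (commutator P)).eq_bot_or_eq_top_of_prime_card with h | h
  · exfalso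
    have h2 : b ∈ (Subgroup.center P).subgroupOf (commutator P) := by
      rw [Subgroup.mem_subgroupOf]; exact hbc
    rw [h, Subgroup.mem_bot] at h2
    exact hb1 h2.symm
  · exact Subgroup.subgroupOf_eq_top.1 h

/-- the commutator pairing -/
theorem ge_pair (p : ℕ) [Fact p.Prime] (P : Type) [Group P] [Finite P]
    (hc : Nat.card (commutator P) = p) (hcen : commutator P ≤ Subgroup.center P)
    (E : Subgroup P) : (Subgroup.centralizer (E : Set P)).index =
      (Subgroup.center P).relIndex E := by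
  obtain ⟨ι, hι⟩ : ∃ ι : commutator P →* ℂˣ, Function.Injective ι := by
    have h1 : Nat.card (rootsOfUnity p ℂ) = p := Complex.card_rootsOfUnity p
    exact ⟨(rootsOfUnity p ℂ).subtype.comp (mulEquivOfPrimeCardEq hc h1).toMonoidHom,
      (Subgroup.subtype_injective _).comp (mulEquivOfPrimeCardEq hc h1).injective⟩
  have hmem : ∀ a b : P, a * b * a⁻¹ * b⁻¹ ∈ commutator P := fun a b =>
    Subgroup.commutator_mem_commutator (Subgroup.mem_top a) (Subgroup.mem_top b)
  have hz : ∀ a b c : P, c * (a * b * a⁻¹ * b⁻¹) = (a * b * a⁻¹ * b⁻¹) * c := fun a b c =>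
    Subgroup.mem_center_iff.1 (hcen (hmem a b)) c
  obtain ⟨β, hβ⟩ : ∃ β : P →* (E →* ℂˣ), ∀ (g : P) (e : E),
      β g e = ι ⟨g * e * g⁻¹ * (e : P)⁻¹, hmem g e⟩ := by
    have h1 : ∀ (g : P) (e e' : E), ι ⟨g * (e * e' : E) * g⁻¹ * ((e * e' : E) : P)⁻¹, hmem g _⟩ =
        ι ⟨g * e * g⁻¹ * (e : P)⁻¹, hmem g e⟩ * ι ⟨g * e' * g⁻¹ * (e' : P)⁻¹, hmem g e'⟩ := by
      intro g e e'
      rw [← map_mul]
      congr 1
      apply Subtype.ext
      show g * ((e : P) * e') * g⁻¹ * ((e : P) * e')⁻¹ =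
        (g * e * g⁻¹ * (e : P)⁻¹) * (g * e' * g⁻¹ * (e' : P)⁻¹)
      have h2 := hz g e' (g * e * g⁻¹)
      calc g * ((e : P) * e') * g⁻¹ * ((e : P) * e')⁻¹ =
          (g * e * g⁻¹ * (g * e' * g⁻¹ * (e' : P)⁻¹)) * (e : P)⁻¹ := by group
        _ = (g * e' * g⁻¹ * (e' : P)⁻¹) * (g * e * g⁻¹) * (e : P)⁻¹ := by rw [h2]
        _ = (g * e' * g⁻¹ * (e' : P)⁻¹) * (g * e * g⁻¹ * (e : P)⁻¹) := by group
        _ = _ := hz g e' _ ▸ rfl
    refine ⟨⟨⟨fun g => ⟨⟨fun e => ι ⟨g * e * g⁻¹ * (e : P)⁻¹, hmem g e⟩, ?_⟩, h1 g⟩, ?_⟩, ?_⟩,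
      fun g e => rfl⟩
    · rw [← map_one ι]
      congr 1
      apply Subtype.ext
      show g * ((1 : E) : P) * g⁻¹ * ((1 : E) : P)⁻¹ = 1
      simp
    · ext e
      show ((ι ⟨1 * e * 1⁻¹ * (e : P)⁻¹, hmem 1 e⟩ : ℂˣ) : ℂ) = ((1 : ℂˣ) : ℂ)
      rw [← map_one ι]
      congr 2
      apply Subtype.ext
      show 1 * (e : P) * 1⁻¹ * (e : P)⁻¹ = 1
      simp
    · intro g g'
      apply MonoidHom.ext
      intro e
      show ι ⟨(g * g') * e * (g * g')⁻¹ * (e : P)⁻¹, hmem _ e⟩ =
        ι ⟨g * e * g⁻¹ * (e : P)⁻¹, hmem g e⟩ * ι ⟨g' * e * g'⁻¹ * (e : P)⁻¹, hmem g' e⟩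
      rw [← map_mul]
      congr 1
      apply Subtype.ext
      show (g * g') * (e : P) * (g * g')⁻¹ * (e : P)⁻¹ =
        (g * e * g⁻¹ * (e : P)⁻¹) * (g' * e * g'⁻¹ * (e : P)⁻¹)
      have h2 := hz g' e g
      calc (g * g') * (e : P) * (g * g')⁻¹ * (e : P)⁻¹ =
          (g * (g' * e * g'⁻¹ * (e : P)⁻¹)) * e * g⁻¹ * (e : P)⁻¹ := by group
        _ = ((g' * e * g'⁻¹ * (e : P)⁻¹) * g) * e * g⁻¹ * (e : P)⁻¹ := by rw [h2]
        _ = (g' * e * g'⁻¹ * (e : P)⁻¹) * (g * e * g⁻¹ * (e : P)⁻¹) := by group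
        _ = _ := (hz g' e _).symm
  have hone : ∀ (g : P) (e : E), β g e = 1 ↔ g * e = e * g := by
    intro g e
    rw [hβ, ← map_one ι, hι.eq_iff, Subtype.ext_iff]
    show g * e * g⁻¹ * (e : P)⁻¹ = 1 ↔ _
    rw [mul_inv_eq_one, mul_inv_eq_iff_eq_mul]
  have h1 : β.ker = Subgroup.centralizer (E : Set P) := by
    ext g
    rw [MonoidHom.mem_ker, Subgroup.mem_centralizer_iff]
    constructor
    · intro h e he
      have := (hone g ⟨e, he⟩).1 (by rw [h]; rfl)
      exact this.symm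
    · intro h
      apply MonoidHom.ext
      intro e
      exact (hone g e).2 (h e e.2).symm
  have h2 : β.flip.ker = (Subgroup.center P).subgroupOf E := by
    ext e
    rw [MonoidHom.mem_ker, Subgroup.mem_subgroupOf, Subgroup.mem_center_iff]
    constructor
    · intro h g
      exact (hone g e).1 (by rw [← MonoidHom.flip_apply, h]; rfl)
    · intro h
      apply MonoidHom.ext
      intro g
      rw [MonoidHom.flip_apply]
      exact (hone g e).2 (h g)
  rw [← h1, ge_dual', h2]
  rfl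

theorem st_GE : ST_GE := by
  intro p hpF P _ _ hP hc
  have hpp : p.Prime := hpF.out
  have hcen := ge_cen p P hP hc
  obtain ⟨E, ⟨hE1, hE2⟩, hmax⟩ := Set.exists_max_image
    {E : Subgroup P | (∀ a ∈ E, ∀ b ∈ E, a * b = b * a) ∧ ∀ a ∈ E, a ^ p = 1}
    (fun E => Nat.card (E.map (QuotientGroup.mk' (Subgroup.center P)))) (Set.toFinite _)
    ⟨⊥, by
      constructor
      · intro a ha b hb
        rw [Subgroup.mem_bot.1 ha, Subgroup.mem_bot.1 hb]
      · intro a ha
        rw [Subgroup.mem_bot.1 ha, one_pow]⟩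
  refine ⟨E, hE1, hE2, ?_, ge_pair p P hc hcen E, ?_⟩
  · intro x hx hxp y hy
    obtain ⟨h1, h2⟩ := ge_add p (insert x (E : Set P)) (by
      intro a ha b hb
      rcases ha with rfl | ha <;> rcases hb with rfl | hb
      · rfl
      · exact (Subgroup.mem_centralizer_iff.1 hx b hb).symm
      · exact Subgroup.mem_centralizer_iff.1 hx a ha
      · exact hE1 a ha b hb) (by
      intro a ha
      rcases ha with rfl | ha
      · exact hxp
      · exact hE2 a ha)
    have h3 := hmax _ ⟨h1, h2⟩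
    have h4 : E ≤ Subgroup.closure (insert x (E : Set P)) := fun a ha =>
      Subgroup.subset_closure (Set.mem_insert_of_mem _ ha)
    have h5 : E.map (QuotientGroup.mk' (Subgroup.center P)) =
        (Subgroup.closure (insert x (E : Set P))).map (QuotientGroup.mk' (Subgroup.center P)) :=
      Subgroup.eq_of_le_of_card_ge (Subgroup.map_mono h4) h3
    have h6 : QuotientGroup.mk' (Subgroup.center P) x ∈
        E.map (QuotientGroup.mk' (Subgroup.center P)) := by
      rw [h5]
      exact Subgroup.mem_map_of_mem _ (Subgroup.subset_closure (Set.mem_insert _ _))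
    obtain ⟨e, he, hex⟩ := h6
    have h7 : e⁻¹ * x ∈ Subgroup.center P := QuotientGroup.eq.1 hex
    have h8 := Subgroup.mem_center_iff.1 h7 y
    have h9 : e * y = y * e := Subgroup.mem_centralizer_iff.1 hy e he
    calc x * y = e * ((e⁻¹ * x) * y) := by group
      _ = e * (y * (e⁻¹ * x)) := by rw [h8]
      _ = (e * y) * (e⁻¹ * x) := by group
      _ = (y * e) * (e⁻¹ * x) := by rw [h9]
      _ = y * x := by group
  · have h1 : ⁅E, (⊤ : Subgroup P)⁆ ≤ commutator P := Subgroup.commutator_mono le_top le_rfl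
    have h2 : Nat.card (⁅E, (⊤ : Subgroup P)⁆ : Subgroup P) ∣ p := by
      rw [← hc]
      exact Subgroup.card_dvd_of_le h1
    rcases (Nat.dvd_prime hpp).1 h2 with h3 | h3
    · left
      rw [Subgroup.card_eq_one, Subgroup.commutator_eq_bot_iff_le_centralizer,
        Subgroup.coe_top, Subgroup.centralizer_univ] at h3
      exact Subgroup.relIndex_eq_one.2 h3
    · right; exact h3

end Pool.Agent.Helper20.NP
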